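import Mathlib

namespace Pool.Agent.H.MP_c611ca_co

open Set

abbrev E (m : ℕ) := EuclideanSpace ℝ (Fin m)

variable {m : ℕ} {ι : Type} [Fintype ι] [DecidableEq ι]

theorem mem (v : ι → E m) {x} (h : x ∈ convexHull ℝ (range v)) :
    ∃ w : ι → ℝ, (∀ i, 0 ≤ w i) ∧ ∑ i, w i = 1 ∧ ∑ i, w i • v i = x := by
  refine convexHull_min (t := {x | ∃ w : ι → ℝ, (∀ i, 0 ≤ w i) ∧ ∑ i, w i = 1 ∧
    ∑ i, w i • v i = x}) ?_ ?_ h
  · rintro _ ⟨i, rfl⟩
    exact ⟨Pi.single i 1, fun j => by simp [Pi.single_apply]; split_ifs <;> simp, by simp,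
      by simp [Pi.single_apply]⟩
  · rintro _ ⟨w, a, b, rfl⟩ _ ⟨u, c, d, rfl⟩ s t hs ht e
    exact ⟨s • w + t • u, fun i => add_nonneg (mul_nonneg hs (a i)) (mul_nonneg ht (c i)), by
      simp [Finset.sum_add_distrib, ← Finset.mul_sum, b, d, e], by
      simp [Finset.sum_add_distrib, Finset.smul_sum, add_smul, mul_smul]⟩

theorem face (v : ι → E m) (l : StrongDual ℝ (E m)) (c : ℝ) (h : ∀ k, l (v k) ≤ c) (i : ι)
    (hi : l (v i) = c) : {x ∈ convexHull ℝ (range v) | ∀ y ∈ convexHull ℝ (range v), l y ≤ l x} =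
      convexHull ℝ (v '' {k | l (v k) = c}) := by
  have s : ∀ k, v k ∈ convexHull ℝ (range v) := fun k => subset_convexHull _ _ ⟨k, rfl⟩
  refine Subset.antisymm (fun x ⟨a, b⟩ => ?_) fun x hx =>
    ⟨convexHull_mono (image_subset_range _ _) hx, fun y hy => ?_⟩
  · obtain ⟨w, p, d, rfl⟩ := mem v a
    have z : ∑ k, w k * (c - l (v k)) = 0 := le_antisymm (by
      simpa [mul_sub, ← Finset.sum_mul, d, hi] using b _ (s i))
      (Finset.sum_nonneg fun k _ => mul_nonneg (p k) (sub_nonneg.2 (h k)))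
    rw [Finset.sum_eq_zero_iff_of_nonneg fun k _ => mul_nonneg (p k) (sub_nonneg.2 (h k))] at z
    rw [← Finset.sum_filter_of_ne (p := fun k => w k ≠ 0) fun k _ a e => a (by simp [e])]
    exact (convex_convexHull _ _).sum_mem (fun k _ => p k) (by rw [Finset.sum_filter_ne_zero, d])
      fun k a => subset_convexHull _ _ ⟨k, (sub_eq_zero.1 ((mul_eq_zero.1
        (z k (Finset.mem_univ _))).resolve_left (Finset.mem_filter.1 a).2)).symm, rfl⟩
  · rw [show l x = c from convexHull_min (t := {y | l y = c}) (by rintro _ ⟨k, a, rfl⟩; exact a)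
      (convex_hyperplane l.isLinear _) hx]
    exact convexHull_min (t := {y | l y ≤ c}) (by rintro _ ⟨k, rfl⟩; exact h k)
      (convex_halfSpace_le l.isLinear _) hy

/-- The points with integer coordinates `V`. -/
def pt (V : ι → Fin m → ℤ) (k : ι) : E m := WithLp.toLp 2 fun a => (V k a : ℝ)

noncomputable def fn (c : Fin m → ℤ) : StrongDual ℝ (E m) := ∑ a, (c a : ℝ) • EuclideanSpace.proj a

omit [Fintype ι] [DecidableEq ι] in
theorem fn_pt (c : Fin m → ℤ) (V : ι → Fin m → ℤ) (k : ι) :
    fn c (pt V k) = (∑ a, c a * V k a : ℤ) := by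
  simp [fn, pt, ContinuousLinearMap.sum_apply]

def Ok (V : ι → Fin m → ℤ) (A : ι → ι → Bool) (C : ι → ι → Fin m → ℤ) (p : ι → ι → ℤ)
    (R : ℤ) (κ : Fin m → Bool → ι) : Prop :=
  (∀ i j, if i = j ∨ A i j then ∀ k, if k = i ∨ k = j then ∑ a, C i j a * V k a = ∑ a, C i j a * V i a
      else ∑ a, C i j a * V k a < ∑ a, C i j a * V i a
    else 0 < p i j ∧ 0 < p j i ∧ ∑ a, |p i j * V i a + p j i * V j a| < R * (p i j + p j i) ∧
      ∃ a, κ a true ≠ i ∧ κ a true ≠ j) ∧ 0 < R ∧
    ∀ a b, V (κ a true) b = (if b = a then R else 0) ∧ V (κ a false) b = -V (κ a true) b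

instance (V : ι → Fin m → ℤ) (A C p R κ) : Decidable (Ok V A C p R κ) := by
  unfold Ok; infer_instance

theorem main {V : ι → Fin m → ℤ} {A C p R κ} (h : Ok V A C p R κ) (o : ι) :
    affineSpan ℝ (range (pt V)) = ⊤ ∧ ∃ e : ι ≃ extremePoints ℝ (convexHull ℝ (range (pt V))),
      (∀ i, (e i).1 = pt V i) ∧ ∀ i j, i ≠ j →
        (IsExtreme ℝ (convexHull ℝ (range (pt V))) (segment ℝ (pt V i) (pt V j)) ↔ A i j) := by
  set v := pt V
  have s : ∀ k, v k ∈ convexHull ℝ (range v) := fun k => subset_convexHull _ _ ⟨k, rfl⟩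
  have y : ∀ i j, i = j ∨ A i j → ∃ l : StrongDual ℝ (E m),
      ∀ k, l (v k) ≤ l (v i) ∧ (l (v k) = l (v i) ↔ k = i ∨ k = j) := fun i j a => by
    have := h.1 i j
    rw [if_pos a] at this
    refine ⟨fn (C i j), fun k => ?_⟩
    have := this k
    rw [fn_pt, fn_pt, Int.cast_le, Int.cast_inj]
    split_ifs at this with b
    exacts [⟨this.le, iff_of_true this b⟩, ⟨this.le, iff_of_false this.ne b⟩]
  have ex : ∀ i j, i = j ∨ A i j → IsExtreme ℝ (convexHull ℝ (range v)) (segment ℝ (v i) (v j)) :=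
    fun i j a => by
      obtain ⟨l, b⟩ := y i j a
      refine IsExposed.isExtreme fun _ => ⟨l, ?_⟩
      rw [face v l _ (fun k => (b k).1) i rfl, ← convexHull_pair, ← image_pair]
      congr 2
      exact Set.ext fun k => (b k).2.symm
  have hR : (0 : ℝ) < R := by exact_mod_cast h.2.1
  have k1 : ∀ a, v (κ a true) = EuclideanSpace.single a (R : ℝ) := fun a => by
    ext b
    simp [v, pt, (h.2.2 a b).1]
  have k2 : ∀ a, v (κ a false) = -EuclideanSpace.single a (R : ℝ) := fun a => by
    ext b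
    simp [← k1, v, pt, (h.2.2 a b).2]
  have U : ∀ x : E m, Nonempty (Fin m) → ∑ a, |x a| < R → x ∈ convexHull ℝ (range v) :=
    fun x _ c => by
      have d : 0 < (R - ∑ a, |x a|) / Fintype.card (Fin m) := div_pos (sub_pos.2 c) (by positivity)
      have f : Fintype.card (Fin m) * ((R - ∑ a, |x a|) / Fintype.card (Fin m)) =
        R - ∑ a, |x a| := mul_div_cancel₀ _ (by positivity)
      generalize (R - ∑ a, |x a|) / Fintype.card (Fin m) = δ at d f
      have := (convex_convexHull ℝ (range v)).sum_mem (t := Finset.univ)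
        (w := fun a => (|x a| + δ) / R) (z := fun a => (x a / (|x a| + δ)) • v (κ a true))
        (fun a _ => by positivity) (by
          rw [← Finset.sum_div, Finset.sum_add_distrib, Finset.sum_const, Finset.card_univ,
            nsmul_eq_mul, f, add_sub_cancel, div_self hR.ne']) fun a _ => by
          have g : |x a / (|x a| + δ)| ≤ 1 := by
            rw [abs_div, abs_of_pos (a := _ + _) (by positivity), div_le_one (by positivity)]
            linarith
          have := abs_le.1 g
          refine (convex_convexHull ℝ _).segment_subset (s (κ a true)) (s (κ a false))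
            ⟨(1 + x a / (|x a| + δ)) / 2, (1 - x a / (|x a| + δ)) / 2, by linarith, by linarith,
              by ring, ?_⟩
          rw [k1, k2]
          module
      refine (congrArg (· ∈ _) ?_).mpr this
      ext b
      simp only [k1, WithLp.ofLp_sum, Finset.sum_apply, WithLp.ofLp_smul, Pi.smul_apply,
        PiLp.ofLp_single, Pi.single_apply, smul_eq_mul, mul_ite, mul_zero,
        Finset.sum_ite_eq, Finset.mem_univ, if_true]
      field_simp
  refine ⟨?_, .ofBijective (fun i => ⟨v i, isExtreme_singleton.1 (by simpa using ex i i (.inl rfl))⟩)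
    ⟨fun i j e => ?_, fun u => ?_⟩, fun _ => rfl, fun i j ij =>
      ⟨fun e => by_contra fun a => ?_, fun a => ex i j (.inr a)⟩⟩
  · rw [AffineSubspace.affineSpan_eq_top_iff_vectorSpan_eq_top_of_nonempty _ _ _
      (have := Nonempty.intro o; range_nonempty _),
      eq_top_iff, ← (EuclideanSpace.basisFun (Fin m) ℝ).toBasis.span_eq, Submodule.span_le]
    rintro _ ⟨a, rfl⟩
    rw [show (EuclideanSpace.basisFun (Fin m) ℝ).toBasis a =
      (2 * R : ℝ)⁻¹ • (v (κ a true) -ᵥ v (κ a false)) by
        ext b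
        by_cases c : b = a <;> simp [k1, k2, c]
        field_simp
        norm_num]
    exact Submodule.smul_mem _ _ (vsub_mem_vectorSpan ℝ ⟨_, rfl⟩ ⟨_, rfl⟩)
  · obtain ⟨l, a⟩ := y i i (.inl rfl)
    have e : v i = v j := congrArg Subtype.val e
    simpa [eq_comm] using (a j).2.1 (by rw [e])
  · obtain ⟨i, a⟩ := extremePoints_convexHull_subset u.2
    exact ⟨i, Subtype.ext a⟩
  · have := h.1 i j
    rw [if_neg (by simp [ij, a])] at this
    obtain ⟨p1, p2, q, c, ki, kj⟩ := this
    have p1 : (0 : ℝ) < p i j := by exact_mod_cast p1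
    have p2 : (0 : ℝ) < p j i := by exact_mod_cast p2
    have q : ∑ a, |((p i j : ℝ) • v i + (p j i : ℝ) • v j) a| < R * (p i j + p j i) := by
      simp only [PiLp.add_apply, PiLp.smul_apply, smul_eq_mul, v, pt]
      exact_mod_cast q
    generalize (p i j : ℝ) = a at *
    generalize (p j i : ℝ) = b at *
    have n : 0 ≤ ∑ c, |(a • v i + b • v j) c| := by positivity
    have z : (0 : E m) ∈ segment ℝ (v i) (v j) := e.2 (U 0 ⟨c⟩ (by simpa using h.2.1)) (U
      ((2 * R / (∑ c, |(a • v i + b • v j) c| + R * (a + b))) • (a • v i + b • v j)) ⟨c⟩ (by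
        generalize a • v i + b • v j = x at *
        simp only [PiLp.smul_apply, smul_eq_mul, abs_mul, ← Finset.mul_sum]
        rw [abs_of_pos (by positivity), div_mul_eq_mul_div, div_lt_iff₀ (by positivity)]
        nlinarith)) (z := (a / (a + b)) • v i + (b / (a + b)) • v j)
      ⟨_, _, by positivity, by positivity, by field_simp, rfl⟩
      ⟨(R * (a + b) - ∑ c, |(a • v i + b • v j) c|) / (2 * R * (a + b)),
        (∑ c, |(a • v i + b • v j) c| + R * (a + b)) / (2 * R * (a + b)),
        div_pos (sub_pos.2 q) (by positivity), by positivity, by field_simp; ring, by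
        generalize ∑ c, |(a • v i + b • v j) c| = t at *
        match_scalars <;> field_simp⟩
    set k := κ c true
    have d : v k ∈ segment ℝ (v i) (v j) := e.2 (s k) (s (κ c false)) z
      ⟨1 / 2, 1 / 2, by norm_num, by norm_num, by norm_num, by rw [k1, k2]; module⟩
    obtain ⟨f, g⟩ := y k k (.inl rfl)
    have : v k ∈ {y | f y < f (v k)} := (convex_halfSpace_lt f.isLinear _).segment_subset
      ((g i).1.lt_of_ne fun e => by simpa [ki.symm] using (g i).2.1 e)
      ((g j).1.lt_of_ne fun e => by simpa [kj.symm] using (g j).2.1 e) d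
    exact lt_irrefl (f (v k)) this

end Pool.Agent.H.MP_c611ca_co
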