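import Pool.Agent.H.MP_c611ca_co.A

namespace Pool.Agent.H.MP_c611ca_co

def σ (b : Bool) : ℤ := if b then 1 else -1

def sg (t : Fin 20) (c : Fin 6) : Bool :=
  Nat.testBit 1180206928696382013313767175408374471 (6 * t + c)

def VP (i : Fin 6 × Bool) (a : Fin 5) : ℤ :=
  σ i.2 * if i.1 = 5 then -1 else if i.1.val = a.val then 1 else 0

theorem okP : Ok VP (fun i j => i.1 ≠ j.1) (fun i j a => if i = j then
      (if i.1.val = a then 5 else -1) * σ i.2 else if i.1.val = a then 2 * σ i.2 else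
      if j.1.val = a then 2 * σ j.2 else -(σ i.2 + σ j.2) / 2) (fun _ _ => 1) 1
    fun a b => (a.castSucc, b) := by
  decide +kernel

def VQ : (Fin 6 × Bool) ⊕ Fin 20 → Fin 6 → ℤ
  | .inl i, a => if i.1 = a then 5 * σ i.2 else 0
  | .inr t, a => σ (sg t a)

def AQ : (Fin 6 × Bool) ⊕ Fin 20 → (Fin 6 × Bool) ⊕ Fin 20 → Bool
  | .inl i, .inl j => i.1 ≠ j.1
  | .inl i, .inr t => sg t i.1 = i.2
  | .inr t, .inl i => sg t i.1 = i.2
  | .inr _, .inr _ => false

def pQ : (Fin 6 × Bool) ⊕ Fin 20 → (Fin 6 × Bool) ⊕ Fin 20 → ℤ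
  | .inr _, .inl _ => 5
  | _, _ => 1

theorem okQ : Ok VQ AQ (fun i j a => match i, j with
      | .inl _, .inr _ => 20 * VQ j a + VQ i a
      | .inr _, .inl _ => 20 * VQ i a + VQ j a
      | _, _ => VQ i a + VQ j a) pQ 5 fun a b => .inl (a, b) := by
  decide +kernel

end Pool.Agent.H.MP_c611ca_co
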