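import Pool.Agent.H.MP_c611ca_co.B

namespace Pool.Agent.H.MP_c611ca_co

open Set Module

theorem dot : ∀ t k, ∑ a : Fin 5, σ (sg t a.castSucc) * VP k a = if sg t k.1 = k.2 then 1 else -1 := by
  decide +kernel

theorem cls : ∀ z : Fin 6 → SignType, 5 ≤ (Finset.univ.filter fun k : Fin 6 × Bool =>
    z k.1 = if k.2 then 1 else -1).card → (∃ c, ∀ a, a ≠ c → z a ≠ 0) ∧
      (∑ a, (z a : ℤ) = 0 → ∃ t, ∀ a, z a = if sg t a then 1 else -1) := by
  decide +kernel

theorem facets : ∃ φ : Fin 20 ≃ {F : Set (E 5) // IsExposed ℝ (convexHull ℝ (range (pt VP))) F ∧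
    finrank ℝ (vectorSpan ℝ F) = 4}, ∀ t k, pt VP k ∈ (φ t).1 ↔ sg t k.1 = k.2 := by
  set v := pt VP
  have s : ∀ k, v k ∈ convexHull ℝ (range v) := fun k => subset_convexHull _ _ ⟨k, rfl⟩
  let l : Fin 20 → StrongDual ℝ (E 5) := fun t => fn fun a => σ (sg t a.castSucc)
  have lv : ∀ t k, l t (v k) = if sg t k.1 = k.2 then 1 else -1 := fun t k => by
    rw [fn_pt, dot]
    split_ifs <;> simp
  have l1 : ∀ t k, l t (v k) = 1 ↔ sg t k.1 = k.2 := fun t k => by
    rw [lv]
    split_ifs with h <;> norm_num [h]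
  let F : Fin 20 → Set (E 5) := fun t =>
    {x ∈ convexHull ℝ (range v) | ∀ y ∈ convexHull ℝ (range v), l t y ≤ l t x}
  have hF : ∀ t, F t = convexHull ℝ (v '' {k | sg t k.1 = k.2}) := fun t => by
    simp only [← l1]
    exact face v (l t) 1 (fun k => by rw [lv]; split_ifs <;> norm_num) (0, sg t 0) ((l1 _ _).2 rfl)
  have m : ∀ t k, v k ∈ F t ↔ sg t k.1 = k.2 := fun t k => ⟨fun h => by
    have := h.2 _ (s (0, sg t 0))
    rw [(l1 _ _).2 rfl, lv] at this
    split_ifs at this with a
    exacts [a, by norm_num at this], fun h => hF t ▸ subset_convexHull _ _ ⟨k, h, rfl⟩⟩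
  have d : ∀ t, finrank ℝ (vectorSpan ℝ (F t)) = 4 := fun t => by
    have : vectorSpan ℝ (F t) = LinearMap.ker (l t).toLinearMap := by
      refine le_antisymm (Submodule.span_le.2 ?_) fun x hx => ?_
      · rintro _ ⟨x, a, y, b, rfl⟩
        simpa [sub_eq_zero] using (b.2 _ a.1).antisymm (a.2 _ b.1)
      have h : ∑ a : Fin 5, (σ (sg t a.castSucc) : ℝ) * x a = 0 := by simpa [l, fn] using hx
      rw [show x = ∑ a : Fin 5, ((σ (sg t a.castSucc) : ℝ) * x a) •
          (v (a.castSucc, sg t a.castSucc) -ᵥ v (0, sg t 0)) by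
        simp only [vsub_eq_sub, smul_sub, Finset.sum_sub_distrib, ← Finset.sum_smul, h, zero_smul,
          sub_zero]
        ext b
        have : ∀ a : Fin 5, a.castSucc ≠ 5 := by decide
        simp only [WithLp.ofLp_sum, Finset.sum_apply, WithLp.ofLp_smul, Pi.smul_apply, v, pt, VP, this]
        simp [Fin.val_inj, σ]
        split_ifs <;> simp]
      exact Submodule.sum_mem _ fun a _ => Submodule.smul_mem _ _
        (vsub_mem_vectorSpan ℝ ((m _ _).2 rfl) ((m _ _).2 rfl))
    have h := Module.Dual.finrank_ker_add_one_of_ne_zero (f := (l t).toLinearMap) fun e => by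
      simpa using (LinearMap.congr_fun e (v (0, sg t 0))).symm.trans ((l1 _ _).2 rfl)
    rw [finrank_euclideanSpace_fin] at h
    rw [this]
    omega
  refine ⟨.ofBijective (fun t => ⟨F t, fun _ => ⟨l t, rfl⟩, d t⟩) ⟨fun t u e => ?_,
    fun ⟨G, a, b⟩ => ?_⟩, m⟩
  · have e : F t = F u := congrArg Subtype.val e
    refine (?_ : ∀ t u, (∀ c, sg u c = sg t c) → t = u) t u fun c => (m u (c, _)).1 (e ▸ (m t _).2 rfl)
    decide +kernel
  obtain ⟨f, rfl⟩ := a (G.eq_empty_or_nonempty.resolve_left fun e => by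
    rw [e, vectorSpan_empty, finrank_bot] at b
    omega)
  obtain ⟨i, hi⟩ := Finite.exists_max fun k => f (v k)
  have e := face v f _ hi i rfl
  rw [e, ← direction_affineSpan, affineSpan_convexHull] at b
  have n : ∀ c, f (v (c, false)) = -f (v (c, true)) := fun c => by
    rw [← map_neg]
    congr 1
    ext a
    simp [v, pt, VP, σ]
    split_ifs <;> simp
  have p : 0 < f (v i) := by
    refine not_le.1 fun h => ?_
    have : {k | f (v k) = f (v i)} = univ := eq_univ_of_forall fun k => (hi k).antisymm (by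
      have := hi (k.1, false)
      have := hi (k.1, true)
      have := n k.1
      rcases k with ⟨c, _ | _⟩ <;> linarith)
    rw [this, image_univ, (main okP (0, true)).1] at b
    rw [AffineSubspace.direction_top, finrank_top, finrank_euclideanSpace_fin] at b
    omega
  let z : Fin 6 → SignType := fun c =>
    if f (v (c, true)) = f (v i) then 1 else if f (v (c, false)) = f (v i) then -1 else 0
  have hz : ∀ k, f (v k) = f (v i) ↔ z k.1 = if k.2 then 1 else -1 := by
    rintro ⟨c, _ | _⟩ <;> simp only [z] <;> split_ifs with g g' <;> simp_all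
    linarith
  obtain ⟨⟨c, h1⟩, h2⟩ := cls z (not_lt.1 fun h => by
    simp only [← hz] at h
    obtain ⟨j, g⟩ := Nat.exists_eq_add_one_of_ne_zero (Finset.card_ne_zero.2
      (⟨i, by simp⟩ : (Finset.univ.filter fun k => f (v k) = f (v i)).Nonempty))
    have := finrank_vectorSpan_image_finset_le ℝ v _ g
    rw [Finset.coe_image, Finset.coe_filter_univ] at this
    rw [direction_affineSpan] at b
    omega)
  have r : ∀ a, z a ≠ 0 → f (v (a, true)) - (z a : ℤ) * f (v i) = 0 := fun a => by
    have := n a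
    simp only [z]
    split_ifs <;> simp <;> linarith
  obtain ⟨t, ht⟩ := h2 (by
    have q : ∑ a, f (v (a, true)) = 0 := by
      rw [← map_sum, show ∑ a, v (a, true) = 0 by
        ext a
        fin_cases a <;> simp [v, pt, VP, σ, Fin.sum_univ_succ], map_zero]
    have w := Finset.sum_eq_single (s := Finset.univ) c (fun a _ g => r a (h1 a g)) (by simp)
    rw [Finset.sum_sub_distrib, q, ← Finset.sum_mul, ← Int.cast_sum] at w
    have u : |f (v (c, true)) - (z c : ℤ) * f (v i)| < f (v i) := by
      by_cases g : z c = 0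
      · have := (hi _).lt_of_ne (mt (hz (c, true)).1 (by simp [g]))
        have := (hi _).lt_of_ne (mt (hz (c, false)).1 (by simp [g]))
        have := n c
        simp only [g, SignType.coe_zero, Int.cast_zero, zero_mul, sub_zero, abs_lt]
        constructor <;> linarith
      · rwa [r c g, abs_zero]
    rw [← w, zero_sub, abs_neg, abs_mul, abs_of_pos p, mul_lt_iff_lt_one_left p] at u
    exact Int.abs_lt_one_iff.1 (by exact_mod_cast u))
  refine ⟨t, Subtype.ext ((hF t).trans (Eq.trans ?_ e.symm))⟩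
  congr 2
  ext ⟨a, b⟩
  rw [mem_ofPred_eq, mem_ofPred_eq, hz, ht]
  cases b <;> cases sg t a <;> simp

end Pool.Agent.H.MP_c611ca_co
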